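import Pool.Agent.W845.HC.Base

set_option autoImplicit false
open scoped Classical

namespace Pool.Agent.W577.HC

open Pool.Agent.W845.PM Pool.Agent.W845.HC

theorem ec_eq {V : Type} [Fintype V] (F : SimpleGraph V) : ec F = F.edgeFinset.card := by
  unfold ec
  rw [← SimpleGraph.coe_edgeFinset, Set.ncard_coe_finset]

theorem deg_comp {V : Type} [Fintype V] (F : SimpleGraph V) (c : F.ConnectedComponent)
    (v : V) (hv : v ∈ c.supp) : (c.toSimpleGraph).degree ⟨v, hv⟩ = F.degree v := by
  rw [← SimpleGraph.card_neighborFinset_eq_degree, ← SimpleGraph.card_neighborFinset_eq_degree]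
  apply Finset.card_bij (fun w _ => w.1)
  · intro w hw
    simp only [SimpleGraph.mem_neighborFinset] at hw ⊢
    exact hw
  · intro a _ b _ h
    exact Subtype.ext h
  · intro w hw
    simp only [SimpleGraph.mem_neighborFinset] at hw
    have hw' : w ∈ c.supp := by
      rw [SimpleGraph.ConnectedComponent.mem_supp_iff] at hv ⊢
      rw [← hv]
      exact (SimpleGraph.ConnectedComponent.eq.2 hw.reachable).symm
    refine ⟨⟨w, hw'⟩, ?_, rfl⟩
    simp only [SimpleGraph.mem_neighborFinset]
    exact hw

theorem fc : S_FC := by
  intro V _ F hF
  have h1 : ∀ c : F.ConnectedComponent, (∑ v ∈ Finset.univ.filter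
      (fun v => F.connectedComponentMk v = c), F.degree v) + 2 =
      2 * (Finset.univ.filter (fun v => F.connectedComponentMk v = c)).card := by
    intro c
    have ht := (hF.isTree_connectedComponent c).card_edgeFinset
    have hs := (c.toSimpleGraph).sum_degrees_eq_twice_card_edges
    have h2 : (∑ v ∈ Finset.univ.filter (fun v => F.connectedComponentMk v = c), F.degree v) =
        ∑ v : c, (c.toSimpleGraph).degree v := by
      symm
      apply Finset.sum_bij (fun v _ => v.1)
      · intro a _
        simp only [Finset.mem_filter, Finset.mem_univ, true_and]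
        exact (SimpleGraph.ConnectedComponent.mem_supp_iff c a.1).1 a.2
      · intro a _ b _ h
        exact Subtype.ext h
      · intro b hb
        simp only [Finset.mem_filter, Finset.mem_univ, true_and] at hb
        exact ⟨⟨b, (SimpleGraph.ConnectedComponent.mem_supp_iff c b).2 hb⟩, Finset.mem_univ _, rfl⟩
      · intro a _
        exact deg_comp F c a.1 a.2
    have h3 : (Finset.univ.filter (fun v => F.connectedComponentMk v = c)).card =
        Fintype.card c := by
      rw [← Finset.card_univ]
      symm
      apply Finset.card_bij (fun v _ => v.1)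
      · intro a _
        simp only [Finset.mem_filter, Finset.mem_univ, true_and]
        exact (SimpleGraph.ConnectedComponent.mem_supp_iff c a.1).1 a.2
      · intro a _ b _ h
        exact Subtype.ext h
      · intro b hb
        simp only [Finset.mem_filter, Finset.mem_univ, true_and] at hb
        exact ⟨⟨b, (SimpleGraph.ConnectedComponent.mem_supp_iff c b).2 hb⟩, Finset.mem_univ _, rfl⟩
    rw [h2, h3, hs, ← ht]
    ring
  have h4 : (∑ c : F.ConnectedComponent, ((∑ v ∈ Finset.univ.filter
      (fun v => F.connectedComponentMk v = c), F.degree v) + 2)) =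
      ∑ c : F.ConnectedComponent, 2 * (Finset.univ.filter
        (fun v => F.connectedComponentMk v = c)).card :=
    Finset.sum_congr rfl (fun c _ => h1 c)
  rw [Finset.sum_add_distrib, ← Finset.mul_sum] at h4
  have h7 : (∑ c : F.ConnectedComponent, ∑ v ∈ Finset.univ.filter
      (fun v => F.connectedComponentMk v = c), F.degree v) = ∑ v, F.degree v :=
    Finset.sum_fiberwise (s := Finset.univ) (g := F.connectedComponentMk) (f := fun v => F.degree v)
  have h5 : (∑ c : F.ConnectedComponent, (Finset.univ.filter
      (fun v => F.connectedComponentMk v = c)).card) = Fintype.card V := by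
    rw [← Finset.card_univ]
    exact (Finset.card_eq_sum_card_fiberwise (fun _ _ => Finset.mem_univ _)).symm
  rw [h5, h7, F.sum_degrees_eq_twice_card_edges] at h4
  simp only [Finset.sum_const, Finset.card_univ, smul_eq_mul] at h4
  rw [Nat.card_eq_fintype_card, ec_eq]
  have h8 : F.edgeFinset.card = F.edgeFinset.card := rfl
  omega

end Pool.Agent.W577.HC
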