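import Pool.Agent.W845.HC.Base

set_option autoImplicit false
open scoped Classical

namespace Pool.Agent.W577.HC

open Pool.Agent.W845.PM Pool.Agent.W845.HC

theorem ind_mono (hL : S_LAM) (m n d : ℕ) : ∀ G G' : SimpleGraph (Fin m), G ≤ G' →
    (if n ≤ lam G + 2 * d then (1 : ℝ) else 0) ≤ (if n ≤ lam G' + 2 * d then (1 : ℝ) else 0) := by
  intro G G' h
  have h1 := hL.2.2.1 (Fin m) G G' h
  by_cases h2 : n ≤ lam G + 2 * d
  · have h3 : n ≤ lam G' + 2 * d := by omega
    rw [if_pos h2, if_pos h3]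
  · rw [if_neg h2]
    split_ifs <;> norm_num

theorem qth : S_LAM → S_MON → S_PST1 → S_PST2 → S_QTH := by
  intro hL hM _ hP a b ε δ ha hb hε hε1 hδ
  obtain ⟨η, N, hη, h⟩ := hP a b ε ha hb hε hε1
  obtain ⟨N1, hN1⟩ := exists_nat_gt ((-Real.log δ) * 8 / η ^ 2)
  refine ⟨max (max N N1) 1, ?_⟩
  intro n d p q hn had hdb hC hq0 hq1
  have hnN : N ≤ n := by
    have := le_max_left (max N N1) 1
    have h2 := le_max_left N N1
    omega
  have hnN1 : N1 ≤ n := by
    have := le_max_left (max N N1) 1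
    have h2 := le_max_right N N1
    omega
  have hn1 : 1 ≤ n := le_trans (le_max_right _ _) hn
  have hnpos : (0 : ℝ) < n := by exact_mod_cast hn1
  obtain ⟨hA, hB⟩ := h n d p hnN had hdb hC
  obtain ⟨hp0, hp1, -⟩ := hC
  have hd2 : 2 * d ≤ n := by
    have : (2 * d : ℝ) ≤ n := by nlinarith only [hdb, hb, hnpos]
    exact_mod_cast this
  have hm1 : 1 ≤ n - d := by omega
  have hmn : ((n - d : ℕ) : ℝ) ≤ n := by exact_mod_cast Nat.sub_le n d
  have hmpos : (0 : ℝ) < ((n - d : ℕ) : ℝ) := by exact_mod_cast hm1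
  have hs : 0 ≤ η * n := by positivity
  have hexp : Real.exp (-((η * n) ^ 2 / (2 * ((n - d : ℕ) : ℝ) * 2 ^ 2))) ≤ δ := by
    have h1 : η ^ 2 * n / 8 ≤ (η * n) ^ 2 / (2 * ((n - d : ℕ) : ℝ) * 2 ^ 2) := by
      rw [div_le_div_iff₀ (by norm_num) (by positivity)]
      have h2 : 0 ≤ η ^ 2 * n := by positivity
      nlinarith only [mul_le_mul_of_nonneg_left hmn h2]
    have h3 : - Real.log δ < η ^ 2 * n / 8 := by
      have h4 : (-Real.log δ) * 8 / η ^ 2 < n :=
        lt_of_lt_of_le hN1 (by exact_mod_cast hnN1)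
      rw [div_lt_iff₀ (by positivity)] at h4
      linarith only [h4]
    calc _ ≤ Real.exp (Real.log δ) := Real.exp_le_exp.2 (by linarith only [h1, h3])
      _ = δ := Real.exp_log hδ
  have hone := oneT
  constructor
  · intro hq
    have hp'0 : 0 ≤ (1 + ε) * p := by positivity
    have hp'1 : (1 + ε) * p ≤ 1 := hq.trans hq1
    have hmon := hM (n - d) ((1 + ε) * p) q _ hp'0 hq hq1 (ind_mono hL (n - d) n d)
    have hmc := mcdT (n - d) ((1 + ε) * p) 2 (η * n) (fun G => -(lam G : ℝ)) hm1 hp'0 hp'1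
      (by norm_num) hs (by
        intro G G' v hv
        have := hL.2.2.2.2.1 (Fin (n - d)) G G' v hv
        rw [abs_le] at this ⊢
        constructor <;> linarith only [this.1, this.2])
    have hneg : EG (n - d) ((1 + ε) * p) (fun G => -(lam G : ℝ)) =
        - EG (n - d) ((1 + ε) * p) (fun G => (lam G : ℝ)) := by
      have := EG_mul_left (n - d) ((1 + ε) * p) (-1) (fun G => (lam G : ℝ))
      simpa using this
    have hcmp : EG (n - d) ((1 + ε) * p) (fun G => 1 - (if n ≤ lam G + 2 * d then (1 : ℝ) else 0)) ≤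
        EG (n - d) ((1 + ε) * p) (fun G => if EG (n - d) ((1 + ε) * p)
          (fun G => -(lam G : ℝ)) + η * n ≤ -(lam G : ℝ) then (1 : ℝ) else 0) := by
      apply EG_mono hp'0 hp'1
      intro G
      by_cases h2 : n ≤ lam G + 2 * d
      · rw [if_pos h2]
        split_ifs <;> norm_num
      · rw [if_neg h2]
        have h3 : (lam G : ℝ) + 2 * d < n := by
          have : lam G + 2 * d < n := by omega
          exact_mod_cast this
        rw [if_pos]
        · norm_num
        · rw [hneg]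
          linarith only [h3, hA]
    have hsub : EG (n - d) ((1 + ε) * p)
        (fun G => 1 - (if n ≤ lam G + 2 * d then (1 : ℝ) else 0)) =
        1 - EG (n - d) ((1 + ε) * p) (fun G => if n ≤ lam G + 2 * d then (1 : ℝ) else 0) := by
      rw [EG_sub, EG_const hone]
    have h5 := hmc.trans hexp
    linarith only [hmon, hcmp, hsub, h5]
  · intro hq
    have hp'1 : (1 - ε) * p ≤ 1 := by nlinarith only [hp1, hp0, hε, hε1]
    have hp'0 : 0 ≤ (1 - ε) * p := hq0.trans hq
    have hmon := hM (n - d) q ((1 - ε) * p) _ hq0 hq hp'1 (ind_mono hL (n - d) n d)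
    have hmc := mcdT (n - d) ((1 - ε) * p) 2 (η * n) (fun G => (lam G : ℝ)) hm1 hp'0 hp'1
      (by norm_num) hs (by
        intro G G' v hv
        exact hL.2.2.2.2.1 (Fin (n - d)) G G' v hv)
    have hcmp : EG (n - d) ((1 - ε) * p) (fun G => if n ≤ lam G + 2 * d then (1 : ℝ) else 0) ≤
        EG (n - d) ((1 - ε) * p) (fun G => if EG (n - d) ((1 - ε) * p)
          (fun G => (lam G : ℝ)) + η * n ≤ (lam G : ℝ) then (1 : ℝ) else 0) := by
      apply EG_mono hp'0 hp'1
      intro G
      by_cases h2 : n ≤ lam G + 2 * d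
      · rw [if_pos h2]
        have h3 : (n : ℝ) ≤ (lam G : ℝ) + 2 * d := by exact_mod_cast h2
        rw [if_pos]
        linarith only [h3, hB]
      · rw [if_neg h2]
        split_ifs <;> norm_num
    have h5 := hmc.trans hexp
    linarith only [hmon, hcmp, h5]

end Pool.Agent.W577.HC
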